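import Pool.Agent.H554.Final

/-!
# The semifilter trichotomy does not imply that the Menger property is productive

Part 1 (in ZFC): the combinatorial statement `Phi R J par B` implies the semifilter trichotomy and
gives two Menger sets of reals whose product is not Menger.
Part 2: for suitable ground model objects `R`, `J`, `par`, `B` the statement `Phi R J par B` holds
in the extension by some forcing notion. The forcing notion is homogeneous and plays the role of a
countable support iteration of length the successor of the continuum, which alternately adds
Sacks reals over the model of the previous Sacks reals and Miller reals over the whole previous
model. The sets of natural numbers of the ground model remain a reaping family, the groupwise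
density number becomes larger than the continuum of the ground model, and the Sacks reals,
twisted by the Miller reals, give the two Menger sets.
-/

namespace Pool.Agent.Results.MP_9a1337_lc.TrichotomyNonProductive

open Pool.Agent.H554 Pool.Agent.Helper669.Forcing

/-- It is consistent that the semifilter trichotomy holds and the Menger property is not
productive: a hypothesis implying this (first part) is forced (second part). -/
theorem result :
    (∀ (R J : Type) (_ : LinearOrder J) (par : J → Bool) (B : R → Set ℕ), Phi R J par B →
      SemifilterTrichotomy ∧
        ∃ X Y : Set (ℕ → Bool), Menger X ∧ Menger Y ∧ ¬ Menger (X ×ˢ Y)) ∧
    ∃ (R J : Type) (_ : LinearOrder J) (par : J → Bool) (B : R → Set ℕ) (P : Type)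
      (_ : Preorder P), Nonempty P ∧ ∀ p : P, p ∈ ForcedPhi P R J par B :=
  ⟨main_zfc, main_forced⟩

end Pool.Agent.Results.MP_9a1337_lc.TrichotomyNonProductive
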